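import Pool.Agent.helper74.MQ.Spec

/-! Module mq:SELF (project mq:, MP_af9036_an). -/

set_option autoImplicit false

open Complex Metric Set Filter Topology MeasureTheory MPS

noncomputable section

namespace MQ

theorem SELF_two (x y : ZMod (1 + 2)) (h : x ≠ y) : x = y + 1 ∨ y = x + 1 := by
  revert x y; decide

theorem SELF_three (x y z : ZMod (1 + 2)) (h : x ≠ y) (h' : x ≠ z) (h'' : y ≠ z) :
    z = x + 1 ∨ (y = x + 1 ∧ z = y + 1) := by
  revert x y z; decide

theorem SELF_card (x y z w : ZMod (1 + 2)) :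
    x = y ∨ x = z ∨ x = w ∨ y = z ∨ y = w ∨ z = w := by
  revert x y z w; decide

/-- integer periodicity. -/
theorem SELF_per (f : ℤ → ℝ) (N : ℕ) (p : ℝ) (h : ∀ j, f (j + N) = f j + p) (m : ℤ) :
    ∀ j, f (j + m * N) = f j + m * p := by
  induction m using Int.induction_on with
  | zero => intro j; simp
  | succ n ih =>
    intro j
    have := h (j + n * N)
    rw [show j + ((n : ℤ) + 1) * N = j + n * N + N by ring, this, ih j]
    push_cast; ring
  | pred n ih =>
    intro j
    have := h (j + (-(n : ℤ) - 1) * N)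
    rw [show j + (-(n : ℤ) - 1) * N + N = j + (-(n : ℤ)) * N by ring, ih j] at this
    push_cast at this ⊢
    linarith

theorem SELF (hHINJ : HINJ_stmt) (hHPER : HPER_stmt) (hCONF : CONF_stmt) (hFOLD : FOLD_stmt)
    (hSYM : SYM_stmt) (hUNQ : UNQ_stmt) : SELF_stmt := by
  intro k _ b g ψ hF γ Λ N ce α rep τ hγ hγ1 hΛ hW hR i ζ h r s hL hall
  -- basic facts on the directions
  have hΛ0 : (0 : ℝ) < Λ := by linarith
  have hq : γ / Λ ≤ γ / 1000 := div_le_div_of_nonneg_left hγ.le (by norm_num) hΛ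
  have hq0 : 0 < γ / Λ := div_pos hγ hΛ0
  have hnear : ∀ j, |rep i j - (ce j + α i)| ≤ γ / Λ := hR.near i
  have hn1 : ∀ j, rep i j - (ce j + α i) ≤ γ / 1000 := fun j => (abs_le.1 (hnear j)).2.trans hq
  have hn2 : ∀ j, -(γ / 1000) ≤ rep i j - (ce j + α i) := fun j => by
    have := (abs_le.1 (hnear j)).1; linarith
  have hstep : ∀ j, rep i j + γ / 2 < rep i (j + 1) := by
    intro j
    have h1 := hW.gap j
    have h2 := hn1 j
    have h3 := hn2 (j + 1)
    linarith
  have hmono : ∀ (j : ℤ) (n : ℕ), rep i j < rep i (j + (n + 1 : ℕ)) := by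
    intro j n
    induction n with
    | zero => have := hstep j; push_cast; simpa using (by linarith : rep i j < rep i (j + 1))
    | succ n ih =>
      have := hstep (j + (n + 1 : ℕ))
      rw [show j + ((n + 1 : ℕ) : ℤ) + 1 = j + ((n + 1 + 1 : ℕ) : ℤ) by push_cast; ring] at this
      linarith
  have hlt : ∀ j j' : ℤ, j < j' → rep i j < rep i j' := by
    intro j j' hjj
    obtain ⟨n, hn⟩ := Int.le.dest (show j + 1 ≤ j' by omega)
    have := hmono j n
    rwa [show j + ((n + 1 : ℕ) : ℤ) = j' by push_cast; omega] at this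
  have hN := hW.hN
  have hper : ∀ j, rep i (j + N) = rep i j + 2 * Real.pi := hR.perr i
  have hpert : ∀ j, τ i (j + N) = τ i j := hR.pert i
  have hperm := SELF_per (rep i) N (2 * Real.pi) hper
  have hpertm : ∀ (m : ℤ) j, τ i (j + m * N) = τ i j := by
    intro m j
    have := SELF_per (τ i) N 0 (fun j => by rw [hpert j]; ring) m j
    simpa using this
  -- prong indices
  choose A₀ hA₀ using hall
  have key : ∀ j : ℤ, Hit b g (ψ i) (rep i j) (τ i j) ζ 1 h r (A₀ (j % N)) := by
    intro j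
    have h1 := hHPER k b g (ψ i) (rep i (j % N)) (τ i (j % N)) ζ 1 h r (A₀ (j % N)) (j / N)
      (hA₀ (j % N))
    have h2 := hperm (j / N) (j % N)
    have h3 := hpertm (j / N) (j % N)
    have h4 : j % (N : ℤ) + j / N * N = j := by
      have := Int.emod_add_mul_ediv j N
      linarith [mul_comm (j / (N : ℤ)) N]
    rw [h4] at h2 h3
    rw [h2, h3]
    exact h1
  have hdist : ∀ j j' : ℤ, j < j' → j' < j + N → A₀ (j % N) ≠ A₀ (j' % N) := by
    intro j j' h1 h2 heq
    have hh := key j'
    rw [← heq] at hh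
    obtain ⟨-, M, hM⟩ := hHINJ k b g ψ hF i i (rep i j) (rep i j') (τ i j) (τ i j') ζ 1 h r s
      (A₀ (j % N)) hL (key j) hh
    have h3 := hlt j j' h1
    have h4 := hlt j' (j + N) h2
    rw [hper] at h4
    have hpi := Real.pi_pos
    have h5 : (0 : ℝ) < M := by
      by_contra hc
      have : (M : ℝ) * (2 * Real.pi) ≤ 0 := mul_nonpos_of_nonpos_of_nonneg (not_lt.1 hc) (by positivity)
      linarith
    have h6 : (M : ℝ) < 1 := by
      by_contra hc
      have : 1 * (2 * Real.pi) ≤ (M : ℝ) * (2 * Real.pi) :=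
        mul_le_mul_of_nonneg_right (not_lt.1 hc) (by positivity)
      linarith
    have h7 : (0 : ℤ) < M := by exact_mod_cast h5
    have h8 : M < (1 : ℤ) := by exact_mod_cast h6
    omega
  -- the fold
  have fold : ∀ j : ℤ, A₀ ((j - 1) % N) = A₀ (j % N) + 1 → False := by
    intro j hj
    have hh := key (j - 1)
    rw [hj] at hh
    obtain ⟨w₀, hw₀, hS, h1, -⟩ := hCONF k b g ψ hF γ Λ N ce α rep τ hγ hγ1 hΛ hW hR i i j (j - 1) ζ 1
      h r s (A₀ (j % N)) hL (key j) hh
    refine hFOLD k b g i (ψ i) ((hF.mx i).1) _ _ _ ?_ ?_ hS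
    · have h2 := (abs_le.1 h1).2
      have h3 := hn2 (j - 1)
      have h4 := hstep (j - 1)
      rw [show j - 1 + 1 = j by ring] at h4
      simp
      linarith
    · have h4 := hstep (j - 1)
      rw [show j - 1 + 1 = j by ring] at h4
      simp
      linarith
  have hN3 : N ≤ 3 := by
    by_contra hc
    have e01 := hdist 0 1 (by norm_num) (by omega)
    have e02 := hdist 0 2 (by norm_num) (by omega)
    have e03 := hdist 0 3 (by norm_num) (by omega)
    have e12 := hdist 1 2 (by norm_num) (by omega)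
    have e13 := hdist 1 3 (by norm_num) (by omega)
    have e23 := hdist 2 3 (by norm_num) (by omega)
    rcases SELF_card (A₀ (0 % N)) (A₀ (1 % N)) (A₀ (2 % N)) (A₀ (3 % N)) with h | h | h | h | h | h
    · exact e01 h
    · exact e02 h
    · exact e03 h
    · exact e12 h
    · exact e13 h
    · exact e23 h
  have hcase : N = 2 ∨ N = 3 := by omega
  rcases hcase with rfl | rfl
  · -- N = 2
    have e01 := hdist 0 1 (by norm_num) (by norm_num)
    rcases SELF_two _ _ e01 with h1 | h1
    · refine fold 1 ?_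
      simpa using h1
    · refine fold 0 ?_
      have : ((0 : ℤ) - 1) % ((2 : ℕ) : ℤ) = 1 % ((2 : ℕ) : ℤ) := by norm_num
      rw [this]
      exact h1
  · have e01 := hdist 0 1 (by norm_num) (by norm_num)
    have e02 := hdist 0 2 (by norm_num) (by norm_num)
    have e12 := hdist 1 2 (by norm_num) (by norm_num)
    have em : ((0 : ℤ) - 1) % ((3 : ℕ) : ℤ) = 2 % ((3 : ℕ) : ℤ) := by norm_num
    rcases SELF_three _ _ _ e01 e02 e12 with h1 | ⟨h1, h2⟩
    · refine fold 0 ?_
      rw [em]
      exact h1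
    · have k0 := key 0
      have k1 := key 1
      have k2 := key 2
      have k1' := k1
      rw [h1] at k1'
      rw [h2] at k2
      obtain ⟨w₀, hw₀, hS₁, a1, a2⟩ := hCONF k b g ψ hF γ Λ 3 ce α rep τ hγ hγ1 hΛ hW hR i i 0 1 ζ 1
        h r s _ hL k0 k1'
      obtain ⟨w₁, hw₁, hS₂, b1, b2⟩ := hCONF k b g ψ hF γ Λ 3 ce α rep τ hγ hγ1 hΛ hW hR i i 1 2 ζ 1
        h r s _ hL k1 k2
      have c1 := (hSYM k b g i i (ψ i) (ψ i) (hF.mx i).1 (hF.mx i).1 _ _ _ hS₂).1
      have c2 := ((hSYM k b g i i (ψ i) (ψ i) (hF.mx i).1 (hF.mx i).1 _ _ _ c1).2.1 (-1)).2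
      have d1 := hper (-1)
      have d2 := hper 0
      have d3 := hW.per (-1)
      norm_num at d1 d2 d3
      have s0 := hstep 0
      have s1 := hstep 1
      have s2 := hstep 2
      have s3 := hstep (-1)
      norm_num at s0 s1 s2 s3 a1 b1
      have n0 := hn2 0
      have n1 := hn1 (-1)
      have n2 := hn2 (-1)
      have n3 := hn1 0
      have g0 := hW.gap (-1)
      norm_num at g0
      have a1' := (abs_le.1 a1)
      have b1' := (abs_le.1 b1)
      set S₁ : ℂ := (((τ i 0 + τ i 1 : ℝ) : ℂ) + ((rep i 0 + rep i 1 : ℝ) : ℂ) * I) with hS₁d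
      set S₂ : ℂ := (((τ i 1 + τ i 2 : ℝ) : ℂ) + ((rep i 1 + rep i 2 : ℝ) : ℂ) * I) with hS₂d
      have e1 : S₁.im = rep i 0 + rep i 1 := by simp [hS₁d]
      have e2 : S₂.im = rep i 1 + rep i 2 := by simp [hS₂d]
      have f1 : S₂.im - rep i 1 + ((-1 : ℤ) : ℝ) * (2 * Real.pi) = rep i (-1) := by
        rw [e2]; push_cast; linarith
      have f2 : S₂.im - (rep i 1 - w₁) + ((-1 : ℤ) : ℝ) * (2 * Real.pi) = rep i (-1) + w₁ := by
        rw [e2]; push_cast; linarith
      rw [f1, f2] at c2
      have q1 : rep i 0 - w₀ < (rep i (-1) + rep i 0) / 2 := by linarith [a1'.2]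
      have q2 : (rep i (-1) + rep i 0) / 2 < rep i 0 := by linarith
      have q3 : rep i (-1) < (rep i (-1) + rep i 0) / 2 := by linarith
      have q4 : (rep i (-1) + rep i 0) / 2 < rep i (-1) + w₁ := by
        have u1 := (abs_le.1 b2).1
        have u2 := hW.per 0
        norm_num at u1 u2
        linarith [hn1 (-1), hn1 0]
      obtain ⟨-, m, hm⟩ := hUNQ k b g ψ hF i i i _ _ _ _ _ _ ((rep i (-1) + rep i 0) / 2) hS₁ c2
        q1 q2 q3 q4
      have him := congrArg Complex.im hm
      have him2 : S₂.im - 2 * Real.pi = S₁.im + 2 * Real.pi * m := by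
        simpa [sub_eq_add_neg] using him
      rw [e1, e2] at him2
      have hpi := Real.pi_pos
      have v1 : rep i 2 - rep i 0 = (m + 1) * (2 * Real.pi) := by linarith
      have v2 : 0 < ((m : ℝ) + 1) := by
        by_contra hc
        have : ((m : ℝ) + 1) * (2 * Real.pi) ≤ 0 :=
          mul_nonpos_of_nonpos_of_nonneg (not_lt.1 hc) (by positivity)
        linarith
      have v3 : ((m : ℝ) + 1) < 1 := by
        by_contra hc
        have : 1 * (2 * Real.pi) ≤ ((m : ℝ) + 1) * (2 * Real.pi) :=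
          mul_le_mul_of_nonneg_right (not_lt.1 hc) (by positivity)
        linarith
      have v4 : (0 : ℤ) < m + 1 := by exact_mod_cast v2
      have v5 : m + 1 < (1 : ℤ) := by exact_mod_cast v3
      omega

end MQ
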